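import Pool.Agent.H25.TRI.Targets

/-! Row C_GAU of the board reg_modules: the Gaussian is a positive smooth probability density with
all moments. -/

set_option autoImplicit false

namespace Pool.Agent.H60.TRI

open MeasureTheory Metric Set Filter Topology Pool.Agent.H87.SN Pool.Agent.H25.TRI
open scoped ContDiff RealInnerProductSpace ENNReal

noncomputable section

theorem int_exp (n : ℕ) (b : ℝ) (hb : 0 < b) :
    Integrable (fun z : E n => Real.exp (-b * ‖z‖ ^ 2)) := by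
  by_contra h
  have h1 := integral_undef h
  have h2 := GaussianFourier.integral_rexp_neg_mul_sq_norm (V := E n) hb
  rw [h1] at h2
  exact (Real.rpow_pos_of_pos (div_pos Real.pi_pos hb) _).ne h2

theorem pow_le (k : ℕ) (t : ℝ) (ht : 0 ≤ t) :
    t ^ k ≤ (1 + 8 ^ k * (k.factorial : ℝ)) * Real.exp (t ^ 2 / 8) := by
  have h1 : t ^ k ≤ 1 + t ^ (2 * k) := by
    rcases le_total t 1 with h | h
    · have := pow_le_one₀ (n := k) ht h
      have h2 : 0 ≤ t ^ (2 * k) := pow_nonneg ht _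
      linarith
    · have := pow_le_pow_right₀ h (show k ≤ 2 * k by omega)
      linarith
  have h2 := Real.pow_div_factorial_le_exp (t ^ 2 / 8) (by positivity) k
  have h3 : (0 : ℝ) < k.factorial := by exact_mod_cast k.factorial_pos
  have h4 : t ^ (2 * k) ≤ 8 ^ k * (k.factorial : ℝ) * Real.exp (t ^ 2 / 8) := by
    have h5 : t ^ (2 * k) = 8 ^ k * (k.factorial : ℝ) * ((t ^ 2 / 8) ^ k / (k.factorial : ℝ)) := by
      rw [pow_mul, div_pow]
      field_simp
    rw [h5]
    exact mul_le_mul_of_nonneg_left h2 (by positivity)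
  have h5 : 1 ≤ Real.exp (t ^ 2 / 8) := Real.one_le_exp (by positivity)
  calc t ^ k ≤ 1 + t ^ (2 * k) := h1
    _ ≤ Real.exp (t ^ 2 / 8) + 8 ^ k * (k.factorial : ℝ) * Real.exp (t ^ 2 / 8) := add_le_add h5 h4
    _ = _ := by ring

theorem gam_hasFDerivAt (n : ℕ) (z : E n) :
    HasFDerivAt (gam : E n → ℝ) ((-(gam z) / 2) • (innerSL ℝ z)) z := by
  have h1 : HasFDerivAt (fun x : E n => ‖x‖ ^ 2) (2 • (innerSL ℝ z)) z :=
    (hasStrictFDerivAt_norm_sq z).hasFDerivAt
  have h2 : HasFDerivAt (fun x : E n => -(‖x‖ ^ 2) / 4)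
      ((-(4 : ℝ)⁻¹) • (2 • (innerSL ℝ z : E n →L[ℝ] ℝ))) z := by
    have h3 := h1.const_smul (-(4 : ℝ)⁻¹)
    refine h3.congr_of_eventuallyEq (Eventually.of_forall fun x => ?_)
    change -(‖x‖ ^ 2) / 4 = (-(4 : ℝ)⁻¹) * (‖x‖ ^ 2)
    ring
  have h4 := (h2.exp).const_mul ((4 * Real.pi) ^ (-(n : ℝ) / 2))
  refine h4.congr_fderiv ?_
  ext v
  unfold gam
  simp only [ContinuousLinearMap.smul_apply, ContinuousLinearMap.neg_apply, smul_eq_mul, nsmul_eq_mul,
    innerSL_apply_apply]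
  push_cast
  ring

theorem pf_GAU : T_GAU := by
  intro n
  have hc : 0 < (4 * Real.pi) ^ (-(n : ℝ) / 2) := Real.rpow_pos_of_pos (by positivity) _
  have hpos : ∀ z : E n, 0 < gam z := fun z => mul_pos hc (Real.exp_pos _)
  have hsm : ContDiff ℝ ∞ (gam : E n → ℝ) := by
    unfold gam
    exact contDiff_const.mul (((contDiff_norm_sq ℝ).neg.div_const 4).exp)
  refine ⟨hpos, ?_, ?_, hsm, ?_⟩
  · have h1 : ∀ z : E n, gam z = (4 * Real.pi) ^ (-(n : ℝ) / 2) * Real.exp (-(1 / 4) * ‖z‖ ^ 2) := by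
      intro z
      unfold gam
      congr 2
      ring
    simp_rw [h1]
    rw [integral_const_mul, GaussianFourier.integral_rexp_neg_mul_sq_norm (by norm_num)]
    have h2 : Module.finrank ℝ (E n) = n := finrank_euclideanSpace_fin
    rw [h2, show Real.pi / (1 / 4) = 4 * Real.pi by ring, ← Real.rpow_add (by positivity)]
    rw [show -(n : ℝ) / 2 + (n : ℝ) / 2 = 0 by ring, Real.rpow_zero]
  · intro k
    have h1 := (int_exp n (1 / 8) (by norm_num)).const_mul
      ((4 * Real.pi) ^ (-(n : ℝ) / 2) * (1 + 8 ^ k * (k.factorial : ℝ)))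
    refine h1.mono' ?_ (Eventually.of_forall fun z => ?_)
    · exact (((continuous_norm).pow k).mul hsm.continuous).aestronglyMeasurable
    · have h2 : 0 ≤ ‖z‖ ^ k * gam z := mul_nonneg (by positivity) (hpos z).le
      rw [Real.norm_of_nonneg h2]
      have h3 := pow_le k ‖z‖ (norm_nonneg z)
      have h4 : gam z = (4 * Real.pi) ^ (-(n : ℝ) / 2) *
          (Real.exp (-(1 / 8) * ‖z‖ ^ 2) * Real.exp (-(1 / 8) * ‖z‖ ^ 2)) := by
        unfold gam
        rw [← Real.exp_add]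
        congr 2
        ring
      have h5 : Real.exp (‖z‖ ^ 2 / 8) * Real.exp (-(1 / 8) * ‖z‖ ^ 2) = 1 := by
        rw [← Real.exp_add, show ‖z‖ ^ 2 / 8 + -(1 / 8) * ‖z‖ ^ 2 = 0 by ring, Real.exp_zero]
      calc ‖z‖ ^ k * gam z ≤ (1 + 8 ^ k * (k.factorial : ℝ)) * Real.exp (‖z‖ ^ 2 / 8) * gam z :=
            mul_le_mul_of_nonneg_right h3 (hpos z).le
        _ = (4 * Real.pi) ^ (-(n : ℝ) / 2) * (1 + 8 ^ k * (k.factorial : ℝ)) *
            ((Real.exp (‖z‖ ^ 2 / 8) * Real.exp (-(1 / 8) * ‖z‖ ^ 2)) *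
              Real.exp (-(1 / 8) * ‖z‖ ^ 2)) := by
            rw [h4]
            ring
        _ = _ := by rw [h5, one_mul]
  · intro i z
    unfold Pool.Agent.H25.TRI.pd
    rw [(gam_hasFDerivAt n z).fderiv]
    rw [ContinuousLinearMap.smul_apply, innerSL_apply_apply, smul_eq_mul]
    have h1 : ⟪z, bv i⟫ = z i := by
      unfold bv
      rw [EuclideanSpace.inner_single_right]
      simp
    rw [h1]
    ring

end

end Pool.Agent.H60.TRI
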